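import Pool.Agent.P8H98.XE.Main

/-!
# Windows with endpoints in a relatively dense set have small discrepancy

No hypothesis is assumed.
-/

open MeasureTheory

namespace Pool.Agent.Results.MP_8958e8_nt.ExactEndpoints

/-- multiplicity of `s` as a zero of the Riemann zeta function (order of vanishing at `s`) -/
noncomputable def zmult (s : ℂ) : ℕ := analyticOrderNatAt riemannZeta s

/-- the nontrivial zeros of `ζ` -/
def ZZ : Set ℂ := {s : ℂ | riemannZeta s = 0 ∧ 0 < s.re ∧ s.re < 1}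

/-- `N(T; α, β)`: the number of ordered pairs of ordinates in `[0, T]`, counted with multiplicity,
with `(γ₁ - γ₂) (log T) / 2π` in `[α, β]` -/
noncomputable def N (T α β : ℝ) : ℕ :=
  ∑ᶠ p ∈ {p : ℂ × ℂ | p.1 ∈ ZZ ∧ p.2 ∈ ZZ ∧ 0 ≤ p.1.im ∧ p.1.im ≤ T ∧ 0 ≤ p.2.im ∧ p.2.im ≤ T ∧
    α ≤ (p.1.im - p.2.im) * Real.log T / (2 * Real.pi) ∧
    (p.1.im - p.2.im) * Real.log T / (2 * Real.pi) ≤ β}, zmult p.1 * zmult p.2

/-- the integral of the pair correlation function over `[α, β]` -/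
noncomputable def IF (α β : ℝ) : ℝ :=
  ∫ u in α..β, (1 - (Real.sin (Real.pi * u) / (Real.pi * u)) ^ 2)

/-- the main term without the integral, `T log T / 2π` -/
noncomputable def X (T : ℝ) : ℝ := T * Real.log T / (2 * Real.pi)

/-- the discrepancy of the window `[α, β]` at height `T` -/
noncomputable def disc (T α β : ℝ) : ℝ := (N T α β : ℝ) / X T - IF α β

/-- There is a constant `C` such that for every `0 < ε ≤ 1` and every `A`, for all large `T` there
is a set `D` of positive numbers, meeting every interval `[a, a + C / ε]` with `0 ≤ a ≤ A` in a set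
of measure at least `ε / 2`, such that every window `[x, y]` with both endpoints in `D` has
discrepancy at most `ε` in absolute value. The constant does not depend on `ε`, `A`, `T`. -/
theorem result : ∃ C : ℝ, 0 < C ∧ ∀ ε : ℝ, 0 < ε → ε ≤ 1 → ∀ A : ℝ, 0 < A →
    ∃ T₀ : ℝ, ∀ T : ℝ, T₀ ≤ T → ∃ D : Set ℝ, D ⊆ Set.Ioi 0 ∧
      (∀ a : ℝ, 0 ≤ a → a ≤ A →
        ENNReal.ofReal (ε / 2) ≤ volume (D ∩ Set.Icc a (a + C / ε))) ∧
      ∀ x ∈ D, ∀ y ∈ D, x < y → |disc T x y| ≤ ε := by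
  obtain ⟨C, hC, h⟩ := P8H98.XE.main
  have hI : ∀ α β, IF α β = N804.PP β - N804.PP α := N804.val_win
  refine ⟨C, hC, fun ε hε hε1 A hA => ?_⟩
  obtain ⟨T₁, hT₁⟩ := Filter.eventually_atTop.1 (h ε hε hε1 A hA)
  obtain ⟨T₂, -, h3⟩ := N804.win_eq' (A + C / ε)
  refine ⟨max T₁ T₂, fun T hT => ?_⟩
  obtain ⟨D, hD, h1, h2⟩ := hT₁ T ((le_max_left _ _).trans hT)
  refine ⟨D, fun x hx => (hD hx).1, fun a ha haA => h1 a ⟨ha, haA⟩, fun x hx y hy hxy => ?_⟩
  have e : (N T x y : ℝ) = N804.NW T x y :=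
    h3 T ((le_max_right _ _).trans hT) x y (hD hx).1 (hD hy).2
  unfold disc
  rw [e, hI]
  exact h2 x hx y hy hxy

end Pool.Agent.Results.MP_8958e8_nt.ExactEndpoints
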