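import Pool.Agent.P8H16.Short2

/-!
# Short windows: the lower half of the pair correlation conjecture at the differences of a set

No hypothesis is assumed.  Let `0 < δ ≤ 1` be arbitrarily small.  The number of pairs of zeros whose
difference, in units of the mean spacing, is within `δ` of `c`, smoothed with the weight
`1 - |u - c| / δ`, is about `δ X(T)` for large `c` by Montgomery's conjecture.  Here a lower bound with
the right constant is proved for almost all the differences of any set, in the following sense.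

For any reals `a_1, …, a_m` the sum over `i ≠ j` of the smoothed counts at `a_i - a_j` is at least
`((1 - ε) δ m² - C m) X(T)`, with an absolute constant `C`; among any `M(r, δ, ε)` points of `ℝ ^ r`
there are two such that at every coordinate of their difference the count is at least
`(1 - ε) δ X(T)`; and in every arithmetic progression of distances a proportion `≥ c δ` of the windows
of length `2 δ` contains `≥ c δ X(T)` pairs.  All this is hereditary: it holds for every set of zeros of
relative density `ρ` (for example for the simple zeros on the critical line, `ρ > 0.6725`), with `ρ ²`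
in place of `1`.

Idea of the proof.  The smoothed count is, up to the factor `δ`, the autocorrelation of the number of
zeros (of the set) in an interval of length `δ`; so the sum over the differences is bounded from below
by the Cauchy–Schwarz inequality, and the terms `i = j` are `O(X(T))` by the boundedness of the
discrepancy of the windows (starting files).  The last assertions follow with Ramsey's theorem and
from the fact that the autocorrelation is largest at `c = 0`.
-/

open Filter Topology Complex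

namespace Pool.Agent.Results.MP_8958e8_nt.KhintchineWindows

open Pool.Agent.P8H16

/-- the nontrivial zeros of `ζ` with ordinate in `(0, T]` -/
def zeros (T : ℝ) : Set ℂ :=
  {s : ℂ | riemannZeta s = 0 ∧ 0 < s.re ∧ s.re < 1 ∧ 0 < s.im ∧ s.im ≤ T}

/-- the multiplicity of a zero of `ζ` -/
noncomputable def mult (s : ℂ) : ℕ := analyticOrderNatAt riemannZeta s

/-- the simple zeros on the critical line with ordinate in `(0, T]` -/
def simpleZeros (T : ℝ) : Set ℂ := {s : ℂ | s ∈ zeros T ∧ s.re = 1 / 2 ∧ mult s = 1}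

/-- the main term `T log T / 2π` -/
noncomputable def X (T : ℝ) : ℝ := T * Real.log T / (2 * Real.pi)

/-- `w` is a weight on the zeros, at most the multiplicity; for example the multiplicity itself, or
the indicator function of a set of zeros -/
def IsWeight (T : ℝ) (w : ℂ → ℝ) : Prop := ∀ s ∈ zeros T, 0 ≤ w s ∧ w s ≤ mult s

/-- the relative density of the weighted zeros -/
noncomputable def density (T : ℝ) (w : ℂ → ℝ) : ℝ := (∑ᶠ s ∈ zeros T, w s) / X T

/-- the normalised difference of the ordinates -/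
noncomputable def diff (T : ℝ) (s s' : ℂ) : ℝ := (s.im - s'.im) * Real.log T / (2 * Real.pi)

/-- the weighted number of ordered pairs of zeros with normalised difference in `[α, β]`; for
`w = mult` this is the number `N(T; α, β)` of the problem -/
noncomputable def N (T : ℝ) (w : ℂ → ℝ) (α β : ℝ) : ℝ :=
  ∑ᶠ p ∈ {p : ℂ × ℂ | p.1 ∈ zeros T ∧ p.2 ∈ zeros T ∧ α ≤ diff T p.1 p.2 ∧ diff T p.1 p.2 ≤ β},
    w p.1 * w p.2

/-- the smoothed weighted number of pairs of zeros with normalised difference near `c` -/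
noncomputable def W (T : ℝ) (w : ℂ → ℝ) (c δ : ℝ) : ℝ :=
  ∑ᶠ p ∈ {p : ℂ × ℂ | p.1 ∈ zeros T ∧ p.2 ∈ zeros T},
    w p.1 * w p.2 * max 0 (1 - |diff T p.1 p.2 - c| / δ)

lemma zeros_eq (T : ℝ) : zeros T = ↑(H370.Zf riemannZeta 0 T) := by
  ext s
  rw [Finset.mem_coe, Pool.Agent.N804.mem_Z le_rfl]
  simp only [zeros, H370.zset, Set.mem_ofPred_eq]
  tauto

lemma simpleZeros_eq (T : ℝ) : simpleZeros T = ↑(SS T) := by
  ext s
  unfold simpleZeros SS
  rw [zeros_eq, Finset.mem_coe, Finset.mem_filter]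
  exact Iff.rfl

/-- the sets of zeros are finite -/
theorem zeros_finite (T : ℝ) : (zeros T).Finite := by
  rw [zeros_eq]
  exact Finset.finite_toSet _

lemma adm {T : ℝ} {w : ℂ → ℝ} (h : IsWeight T w) : Adm T w := by
  intro s hs
  rw [← Finset.mem_coe, ← zeros_eq] at hs
  exact h s hs

lemma density_eq (T : ℝ) (w : ℂ → ℝ) : density T w = den T w := by
  unfold density den
  rw [zeros_eq, finsum_mem_coe_finset]
  rfl

lemma weight_eq (T c δ : ℝ) (s s' : ℂ) :
    max 0 (1 - |diff T s s' - c| / δ) = hat δ (xs T s - xs T s' - c) := by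
  unfold hat diff xs
  rw [← sub_div, ← sub_mul]

lemma W_eq (T : ℝ) (w : ℂ → ℝ) (c δ : ℝ) : W T w c δ = TW T w c δ := by
  classical
  unfold W TW
  have h : {p : ℂ × ℂ | p.1 ∈ zeros T ∧ p.2 ∈ zeros T} =
      ↑(H370.Zf riemannZeta 0 T ×ˢ H370.Zf riemannZeta 0 T) := by
    rw [zeros_eq]
    ext p
    simp
  rw [h, finsum_mem_coe_finset, Finset.sum_product]
  refine Finset.sum_congr rfl fun s _ => Finset.sum_congr rfl fun s' _ => ?_
  rw [weight_eq]

/-- the smoothed count is at most the count in the window -/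
lemma W_le {T : ℝ} {w : ℂ → ℝ} (hw : IsWeight T w) {c δ : ℝ} (hδ : 0 < δ) :
    W T w c δ ≤ N T w (c - δ) (c + δ) := by
  classical
  set S := H370.Zf riemannZeta 0 T with hS
  have h : {p : ℂ × ℂ | p.1 ∈ zeros T ∧ p.2 ∈ zeros T} = ↑(S ×ˢ S) := by
    rw [zeros_eq]
    ext p
    simp [S]
  have h' : {p : ℂ × ℂ | p.1 ∈ zeros T ∧ p.2 ∈ zeros T ∧ c - δ ≤ diff T p.1 p.2 ∧
      diff T p.1 p.2 ≤ c + δ} = ↑((S ×ˢ S).filter (fun p : ℂ × ℂ => c - δ ≤ diff T p.1 p.2 ∧
      diff T p.1 p.2 ≤ c + δ)) := by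
    rw [zeros_eq]
    ext p
    simp only [Set.mem_ofPred_eq, Finset.coe_filter, Finset.mem_product, Finset.mem_coe, S]
    tauto
  unfold W N
  rw [h, h', finsum_mem_coe_finset, finsum_mem_coe_finset, Finset.sum_filter]
  refine Finset.sum_le_sum fun p hp => ?_
  rw [Finset.mem_product] at hp
  have h1 := (adm hw p.1 hp.1).1
  have h2 := (adm hw p.2 hp.2).1
  rw [weight_eq]
  split_ifs with h3
  · calc w p.1 * w p.2 * hat δ (xs T p.1 - xs T p.2 - c) ≤ w p.1 * w p.2 * 1 := by
          have := hat_le_one hδ (xs T p.1 - xs T p.2 - c)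
          gcongr
      _ = _ := mul_one _
  · rw [← weight_eq]
    have h4 : δ ≤ |diff T p.1 p.2 - c| := by
      by_contra hcon
      push Not at hcon
      have := abs_lt.1 hcon
      exact h3 ⟨by linarith, by linarith⟩
    have h5 : 1 ≤ |diff T p.1 p.2 - c| / δ := by rwa [le_div_iff₀ hδ, one_mul]
    rw [max_eq_left (by linarith), mul_zero]

/-- **Short windows at differences.**  The weights `w` (which may depend on `T`) are at most the
multiplicity, and `density T w` is their relative density.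
(1) There is `C` such that for every `ε > 0`, all large `T`, all weights `w`, all reals `a_1, …, a_m`
with differences at most `κ X(T)` and all `0 < δ ≤ 1`, the sum of `W T w (a_i - a_j) δ` over `i ≠ j` is
at least `((density² - ε) δ m² - C m) X(T)`.
(2) For all `r`, `0 < δ ≤ 1` and `0 < ε ≤ 1` there is `M` such that for all large `T` and weights
`w_1, …, w_r`, among any `M` points of `ℝ ^ r` (with coordinates of the differences at most `κ X(T)`)
there are two such that for every coordinate `c_j` of their difference `W T w_j c_j δ` is at least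
`(density(w_j)² - ε) δ X(T)`.
(3) For every `ρ > 0` there are `c, C > 0` such that for all large `T` and every weight of density at
least `ρ`, every progression `b, 2 b, …, K b` with `δ K ≥ C` contains at least `c δ K` positions `k b`
with `N T w (k b - δ) (k b + δ) ≥ c δ X(T)`.
(4) The multiplicity has the density `1 + o(1)`, the indicator function of the simple zeros on the
critical line has density at least `0.6725` for large `T`. -/
theorem result :
    (∃ C : ℝ, 0 < C ∧ ∀ ε : ℝ, 0 < ε → ε ≤ 1 → ∃ κ T₀ : ℝ, 0 < κ ∧ ∀ T : ℝ, T₀ ≤ T →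
      ∀ w : ℂ → ℝ, IsWeight T w → ∀ (m : ℕ) (a : Fin m → ℝ) (δ : ℝ), 0 < δ → δ ≤ 1 →
        (∀ i j, |a i - a j| ≤ κ * X T) →
        (((density T w) ^ 2 - ε) * δ * m ^ 2 - C * m) * X T ≤
          ∑ i, ∑ j ∈ Finset.univ.erase i, W T w (a i - a j) δ) ∧
    (∀ (r : ℕ) (δ ε : ℝ), 0 < δ → δ ≤ 1 → 0 < ε → ε ≤ 1 → ∃ (M : ℕ) (κ T₀ : ℝ), 0 < κ ∧
      ∀ T : ℝ, T₀ ≤ T → ∀ w : Fin r → ℂ → ℝ, (∀ j, IsWeight T (w j)) →
      ∀ t : Fin M → Fin r → ℝ, (∀ i i' j, |t i j - t i' j| ≤ κ * X T) →
        ∃ i i' : Fin M, i < i' ∧ ∀ j,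
          ((density T (w j)) ^ 2 - ε) * δ * X T ≤ W T (w j) (t i' j - t i j) δ) ∧
    (∀ ρ : ℝ, 0 < ρ → ∃ c C κ T₀ : ℝ, 0 < c ∧ 0 < C ∧ 0 < κ ∧ ∀ T : ℝ, T₀ ≤ T →
      ∀ w : ℂ → ℝ, IsWeight T w → ρ ≤ density T w → ∀ (K : ℕ) (b δ : ℝ), 0 < δ → δ ≤ 1 →
      C ≤ δ * K → K * |b| ≤ κ * X T →
        c * δ * K ≤ ({k : ℕ | 1 ≤ k ∧ k ≤ K ∧
          c * δ * X T ≤ N T w (k * b - δ) (k * b + δ)}.ncard : ℝ)) ∧
    (∀ T : ℝ, ∀ w : ℂ → ℝ, IsWeight T w → ∀ c δ : ℝ, 0 < δ →
      W T w c δ ≤ N T w (c - δ) (c + δ)) ∧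
    (∀ ε : ℝ, 0 < ε → ∃ T₀ : ℝ, ∀ T : ℝ, T₀ ≤ T → |density T (fun s => (mult s : ℝ)) - 1| ≤ ε) ∧
    ∃ T₀ : ℝ, ∀ T : ℝ, T₀ ≤ T → IsWeight T ((simpleZeros T).indicator 1) ∧
      0.6725 ≤ density T ((simpleZeros T).indicator 1) := by
  classical
  refine ⟨?_, ?_, ?_, fun T w hw c δ hδ => W_le hw hδ, ?_, ?_⟩
  · obtain ⟨C, hC, h⟩ := main_sum
    refine ⟨C, hC, fun ε hε hε1 => ?_⟩
    obtain ⟨κ, T₀, hκ, -, h⟩ := h ε hε hε1
    refine ⟨κ, T₀, hκ, fun T hT w hw m a δ hδ hδ1 ha => ?_⟩
    simp only [W_eq, density_eq]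
    exact h T hT w (adm hw) m a δ hδ hδ1 ha
  · intro r δ ε hδ hδ1 hε hε1
    obtain ⟨M, κ, T₀, hκ, -, h⟩ := main_points r δ ε hδ hδ1 hε hε1
    refine ⟨M, κ, T₀, hκ, fun T hT w hw t ht => ?_⟩
    simp only [W_eq, density_eq]
    exact h T hT w (fun j => adm (hw j)) t ht
  · intro ρ hρ
    obtain ⟨c, C, κ, T₀, hc, hC, hκ, -, h⟩ := main_prog ρ hρ
    refine ⟨c, C, κ, T₀, hc, hC, hκ, fun T hT w hw hρw K b δ hδ hδ1 hK hb => ?_⟩
    rw [density_eq] at hρw
    refine (h T hT w (adm hw) hρw K b δ hδ hδ1 hK hb).trans ?_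
    have hfin : {k : ℕ | 1 ≤ k ∧ k ≤ K ∧
        c * δ * X T ≤ N T w (k * b - δ) (k * b + δ)}.Finite :=
      (Set.finite_Icc 1 K).subset fun k hk => ⟨hk.1, hk.2.1⟩
    rw [← Set.ncard_coe_finset]
    refine Nat.cast_le.2 (Set.ncard_le_ncard ?_ hfin)
    intro k hk
    rw [Finset.mem_coe, Finset.mem_filter, Finset.mem_Icc] at hk
    refine ⟨hk.1.1, hk.1.2, ?_⟩
    have h1 := W_le hw (c := k * b) hδ
    rw [W_eq] at h1
    exact hk.2.trans h1
  · intro ε hε
    obtain ⟨T₀, -, h⟩ := all_count hε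
    refine ⟨T₀, fun T hT => ?_⟩
    rw [density_eq]
    obtain ⟨h1, h2⟩ := h T hT
    have e : (fun s => (mult s : ℝ)) = fun s => (H370.mult riemannZeta s : ℝ) := rfl
    rw [e, abs_le]
    constructor <;> linarith
  · obtain ⟨T₀, h10, h⟩ := simple_count
    refine ⟨T₀, fun T hT => ⟨?_, ?_⟩⟩
    · intro s _
      by_cases hs : s ∈ simpleZeros T
      · rw [Set.indicator_of_mem hs]
        have := hs.2.2
        simp [this]
      · rw [Set.indicator_of_notMem hs]
        simp
    · rw [density_eq]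
      unfold den
      have hX : 0 < Pool.Agent.N804.XX T := Pool.Agent.N804.XX_pos (by linarith)
      rw [le_div_iff₀ hX]
      refine (h T hT).trans (le_of_eq ?_)
      have hsub : SS T ⊆ H370.Zf riemannZeta 0 T := by
        unfold SS
        exact Finset.filter_subset _ _
      rw [simpleZeros_eq, ← Finset.sum_subset hsub]
      · rw [Finset.card_eq_sum_ones]
        push_cast
        refine Finset.sum_congr rfl fun s hs => ?_
        rw [Set.indicator_of_mem (by exact_mod_cast hs)]
        rfl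
      · intro s _ hs
        exact Set.indicator_of_notMem (by exact_mod_cast hs) _

end Pool.Agent.Results.MP_8958e8_nt.KhintchineWindows
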