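import Pool.Agent.P8H16.MD6

/-!
# Montgomery's asymptotics in the mean over the dilates of almost every distance

No hypothesis is assumed.  Montgomery's conjecture says that the number of pairs of zeros whose
difference, in units of the mean spacing, lies in `[c + u, c + v]` is about `(v - u) X(T)` for large
`c`, for arbitrarily short windows.  We prove this asymptotic relation, with the right constant, for
the mean over any `K` dilates of almost every distance: let `a_1, …, a_K` be reals with
`a_j - a_i ≥ j - i` for `i < j` (any distinct integers in increasing order, for example squares, primes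
or powers of two) and `θ_1, …, θ_K` any reals.  For all `b ∈ [0, B]` outside a set of measure at
most `η B` and all large `T`,

`| (1/K) ∑_n N(T; a_n b + θ_n + u, a_n b + θ_n + v) / X(T) - (v - u) | ≤ η` for all
`-1 ≤ u ≤ v ≤ 1`,

as soon as `K / (1 + log K) ≥ C η⁻⁷` with an absolute constant `C`.  Moreover this is seen from almost
every zero: for the same `b`, all zeros `γ` outside a set of relative density `η` see the right number
of zeros in the `K` windows, that is, the number of the pairs `(n, γ')` with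
`γ' - γ ∈ a_n b + θ_n + [u, v]` (in units of the mean spacing) is `(v - u) K` with an error at most
`η K`, for all `-1 ≤ u ≤ v ≤ 1` at the same time.

Idea of the proof.  Let `F(t)` be the number of zeros in an interval of length `h` at `t`, minus its
mean value, and let `c_n = a_n b + θ_n`.  For any set of zeros the number of pairs with first member in
the set is an integral of the product of two counting functions, and by the Cauchy–Schwarz
inequality its deviation from the mean is at most the norm of `(1/K) ∑_n F(t + c_n)`.  The square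
of this norm is the mean of the autocorrelation of `F` at the points `c_n - c_j`, and the average over
`b` of the autocorrelation at `c_n - c_j` is `O(1 / |n - j|)` because the discrepancy of the windows
is bounded (starting files).  All intervals are treated at the same time by a partition of unity.
-/

open Filter Topology Complex MeasureTheory

namespace Pool.Agent.Results.MP_8958e8_nt.MeanOverDilates

open Pool.Agent.P8H16 Pool.Agent.P8H16.MD

/-- the nontrivial zeros of `ζ` with ordinate in `(0, T]` -/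
def zeros (T : ℝ) : Set ℂ :=
  {s : ℂ | riemannZeta s = 0 ∧ 0 < s.re ∧ s.re < 1 ∧ 0 < s.im ∧ s.im ≤ T}

/-- the multiplicity of a zero of `ζ` -/
noncomputable def mult (s : ℂ) : ℕ := analyticOrderNatAt riemannZeta s

/-- the main term `T log T / 2π` -/
noncomputable def X (T : ℝ) : ℝ := T * Real.log T / (2 * Real.pi)

/-- the normalised difference of the ordinates -/
noncomputable def diff (T : ℝ) (s s' : ℂ) : ℝ := (s.im - s'.im) * Real.log T / (2 * Real.pi)

/-- the number `N(T; α, β)` of the problem: the number of ordered pairs of zeros with ordinates in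
`(0, T]`, counted with multiplicity, whose normalised difference is in `[α, β]` -/
noncomputable def N (T α β : ℝ) : ℝ :=
  ∑ᶠ p ∈ {p : ℂ × ℂ | p.1 ∈ zeros T ∧ p.2 ∈ zeros T ∧ α ≤ diff T p.1 p.2 ∧ diff T p.1 p.2 ≤ β},
    (mult p.1 : ℝ) * mult p.2

/-- the number of zeros, with multiplicity, whose normalised distance to the right of the zero `s` is
in `[α, β]` -/
noncomputable def seen (T : ℝ) (s : ℂ) (α β : ℝ) : ℝ :=
  ∑ᶠ s' ∈ {s' : ℂ | s' ∈ zeros T ∧ α ≤ diff T s' s ∧ diff T s' s ≤ β}, (mult s' : ℝ)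

/-- in the windows `c_n + [u, v]` the zero `s` sees in the mean `v - u` zeros, with an error at most
`η`, for all `-1 ≤ u ≤ v ≤ 1` at the same time -/
def Good (T : ℝ) {K : ℕ} (c : Fin K → ℝ) (η : ℝ) (s : ℂ) : Prop :=
  ∀ u v : ℝ, -1 ≤ u → u ≤ v → v ≤ 1 →
    |(∑ n, seen T s (c n + u) (c n + v)) / K - (v - u)| ≤ η

lemma zeros_eq (T : ℝ) : zeros T = ↑(H370.Zf riemannZeta 0 T) := by
  ext s
  rw [Finset.mem_coe, Pool.Agent.N804.mem_Z le_rfl]
  simp only [zeros, H370.zset, Set.mem_ofPred_eq]
  tauto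

/-- the sets of zeros are finite -/
theorem zeros_finite (T : ℝ) : (zeros T).Finite := by
  rw [zeros_eq]
  exact Finset.finite_toSet _

lemma diff_eq (T : ℝ) (s s' : ℂ) : diff T s s' = xs T s - xs T s' := by
  unfold diff xs
  rw [← sub_div, ← sub_mul]

lemma N_eq (T α β : ℝ) : N T α β = Cnt (H370.Zf riemannZeta 0 T) mu (xs T) α β := by
  classical
  set S := H370.Zf riemannZeta 0 T with hS
  have h' : {p : ℂ × ℂ | p.1 ∈ zeros T ∧ p.2 ∈ zeros T ∧ α ≤ diff T p.1 p.2 ∧
      diff T p.1 p.2 ≤ β} = ↑((S ×ˢ S).filter (fun p : ℂ × ℂ => α ≤ xs T p.1 - xs T p.2 ∧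
      xs T p.1 - xs T p.2 ≤ β)) := by
    rw [zeros_eq]
    ext p
    simp only [Set.mem_ofPred_eq, Finset.coe_filter, Finset.mem_product, Finset.mem_coe, S, diff_eq]
    tauto
  unfold N Cnt
  rw [h', finsum_mem_coe_finset, Finset.sum_filter, Finset.sum_product]
  rfl

lemma seen_eq (T : ℝ) (s : ℂ) (α β : ℝ) :
    seen T s α β = At (H370.Zf riemannZeta 0 T) mu (xs T) (xs T s) α β := by
  classical
  set S := H370.Zf riemannZeta 0 T with hS
  have h' : {s' : ℂ | s' ∈ zeros T ∧ α ≤ diff T s' s ∧ diff T s' s ≤ β} =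
      ↑(S.filter (fun s' : ℂ => α ≤ xs T s' - xs T s ∧ xs T s' - xs T s ≤ β)) := by
    rw [zeros_eq]
    ext s'
    simp only [Set.mem_ofPred_eq, Finset.coe_filter, Finset.mem_coe, S, diff_eq]
  unfold seen At
  rw [h', finsum_mem_coe_finset, Finset.sum_filter]
  rfl

lemma bad_eq (T : ℝ) {K : ℕ} (c : Fin K → ℝ) (η : ℝ) :
    ∑ᶠ s ∈ {s : ℂ | s ∈ zeros T ∧ ¬ Good T c η s}, (mult s : ℝ) =
      ∑ s ∈ Bad (H370.Zf riemannZeta 0 T) mu (xs T) c η, mu s := by
  classical
  have h' : {s : ℂ | s ∈ zeros T ∧ ¬ Good T c η s} =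
      ↑(Bad (H370.Zf riemannZeta 0 T) mu (xs T) c η) := by
    ext s
    unfold Bad Good
    rw [zeros_eq, Finset.coe_filter]
    simp only [Set.mem_ofPred_eq, seen_eq]
    push Not
    rfl
  rw [h', finsum_mem_coe_finset]
  rfl

/-- **The mean over dilates.**  There is an absolute constant `C` with the following property.  Let
`a_1, …, a_K` be reals with `a_j - a_i ≥ j - i` for `i < j`, let `θ_1, …, θ_K` be any reals,
`0 < η ≤ 1`, `B ≥ 1` and `C (1 + log K) ≤ η⁷ K`.  Then for all large `T` there is a set `E` of measure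
at most `η B` such that for all `b ∈ [0, B]` outside `E`:
(1) all zeros, except for a number (with multiplicity) of at most `η X(T)`, see in the `K` windows
`a_n b + θ_n + [u, v]` the number `(v - u) K` of zeros, with an error at most `η K`, for all
`-1 ≤ u ≤ v ≤ 1` at the same time;
(2) for all `-1 ≤ u ≤ v ≤ 1` the mean over `n` of `N(T; a_n b + θ_n + u, a_n b + θ_n + v)` is
`(v - u) X(T)`, with an error at most `η X(T)`. -/
theorem result : ∃ C : ℝ, 0 < C ∧ ∀ K : ℕ, 0 < K → ∀ a θ : Fin K → ℝ,
    (∀ i j : Fin K, i < j → (j : ℝ) - i ≤ a j - a i) →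
    ∀ η B : ℝ, 0 < η → η ≤ 1 → 1 ≤ B → C * (1 + Real.log K) ≤ η ^ 7 * K →
    ∃ T₀ : ℝ, ∀ T : ℝ, T₀ ≤ T →
      ∃ E : Set ℝ, MeasurableSet E ∧ E ⊆ Set.Icc 0 B ∧ volume E ≤ ENNReal.ofReal (η * B) ∧
        ∀ b ∈ Set.Icc 0 B, b ∉ E →
          ∑ᶠ s ∈ {s : ℂ | s ∈ zeros T ∧ ¬ Good T (fun n => a n * b + θ n) η s}, (mult s : ℝ) ≤
            η * X T ∧
          ∀ u v : ℝ, -1 ≤ u → u ≤ v → v ≤ 1 →
            |(∑ n, N T (a n * b + θ n + u) (a n * b + θ n + v)) / (K * X T) - (v - u)| ≤ η := by
  obtain ⟨C, hC, h⟩ := zeta_main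
  refine ⟨C, hC, fun K hK a θ ha η B hη hη1 hB hCK => ?_⟩
  obtain ⟨T₀, hT₀⟩ := eventually_atTop.1 (h K hK a θ ha η B hη hη1 hB hCK)
  refine ⟨T₀, fun T hT => ?_⟩
  obtain ⟨E, hE1, hE2, hE3, hE4⟩ := hT₀ T hT
  refine ⟨E, hE1, hE2, ?_, fun b hb hbE => ?_⟩
  · have hfin : volume E ≠ ⊤ :=
      (lt_of_le_of_lt (measure_mono hE2) (by rw [Real.volume_Icc]; exact ENNReal.ofReal_lt_top)).ne
    exact (ENNReal.le_ofReal_iff_toReal_le hfin (by positivity)).2 hE3
  · obtain ⟨h1, h2⟩ := hE4 b hb hbE
    refine ⟨?_, fun u v hu huv hv => ?_⟩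
    · rw [bad_eq]
      exact h1
    · simp_rw [N_eq]
      exact h2 u v hu huv hv

end Pool.Agent.Results.MP_8958e8_nt.MeanOverDilates
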