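import Pool.Agent.P8H16.Rec2
import Pool.Agent.P8H16.Rec3
import Pool.Agent.Results.MP_e00215_an.SpectralNiceRecurrence

/-!
# Short windows at the multiples `n b`, `n` in a set of recurrence, for instance the values of a
polynomial

No hypothesis is assumed.  Let `0 < δ ≤ 1` be arbitrarily small.  The number of pairs of zeros whose
difference, in units of the mean spacing, is within `δ` of `c`, smoothed with the weight
`1 - |u - c| / δ`, is about `δ X(T)` for large `c` by Montgomery's conjecture.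

Let `R` be a set of nice recurrence in the sense of ergodic theory (`μ(A ∩ T⁻ⁿ A) > μ(A)² - ε` for some
`n ∈ R`, for all systems).  Then for all positive integers `k` and all `b_1, …, b_k`, which may depend
on `T`, there is `n ∈ R`, bounded in terms of `k, δ, ε` only, such that the product of the smoothed
counts at `n b_1, …, n b_k` is at least `(1 - ε) (δ X(T))^k`.  This is hereditary: it holds for sets of
zeros of relative density `ρ` with the factor `ρ²` instead of `1`.  The values of every nonconstant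
integer polynomial `P` that has a zero modulo every positive integer form a set of nice recurrence
(Kamae and Mendès France); so the window `[P(m) b - δ, P(m) b + δ]` contains at least
`(1 - ε) δ X(T)` pairs for some `m` in a bounded range, for instance for some square `P(m) = m²`.

Idea of the proof.  The smoothed counts at the multiples of `b` form, up to `δ`, the autocorrelation of
the number of zeros in an interval of length `δ`, and by the Cauchy–Schwarz inequality they stay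
positive definite, on a long range, after the subtraction of `(1 - ε) δ X(T)`.  By the theorem of Schur
this holds for the products for several `b`.  A set of nice recurrence carries a convex combination of
the functions `cos (n x)` which is at least `-η` everywhere (starting files); with the bound `O(X(T))` for the
count at `0` (boundedness of the discrepancy, starting files) this gives the result.
-/

open Filter Topology Complex Polynomial

namespace Pool.Agent.Results.MP_8958e8_nt.RecurrenceWindows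

open Pool.Agent.P8H16
open Pool.Agent.Results.MP_e00215_an.SpectralNiceRecurrence (pd_of_ergodic ergodic_of_nice
  nice_of_uniform uniform_of_pd)

/-- `R` is a set of nice recurrence: for every measure preserving system `(X, μ, T)` on a probability
space, every measurable `A` with `μ A > 0` and every `ε > 0` there is `n ∈ R` with
`μ (A ∩ T⁻ⁿ A) > μ(A)² - ε`. -/
def NiceRecurrence (R : Set ℕ) : Prop :=
  ∀ (X : Type) [MeasurableSpace X] (μ : MeasureTheory.Measure X)
    [MeasureTheory.IsProbabilityMeasure μ] (T : X → X),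
    MeasureTheory.MeasurePreserving T μ μ → ∀ A : Set X, MeasurableSet A → 0 < μ A →
      ∀ ε : ℝ, 0 < ε → ∃ n ∈ R, (μ A).toReal ^ 2 - ε < (μ (A ∩ T^[n] ⁻¹' A)).toReal

/-- the nontrivial zeros of `ζ` with ordinate in `(0, T]` -/
def zeros (T : ℝ) : Set ℂ :=
  {s : ℂ | riemannZeta s = 0 ∧ 0 < s.re ∧ s.re < 1 ∧ 0 < s.im ∧ s.im ≤ T}

/-- the multiplicity of a zero of `ζ` -/
noncomputable def mult (s : ℂ) : ℕ := analyticOrderNatAt riemannZeta s

/-- the simple zeros on the critical line with ordinate in `(0, T]` -/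
def simpleZeros (T : ℝ) : Set ℂ := {s : ℂ | s ∈ zeros T ∧ s.re = 1 / 2 ∧ mult s = 1}

/-- the main term `T log T / 2π` -/
noncomputable def X (T : ℝ) : ℝ := T * Real.log T / (2 * Real.pi)

/-- `w` is a weight on the zeros, at most the multiplicity; for example the multiplicity itself, or
the indicator function of a set of zeros -/
def IsWeight (T : ℝ) (w : ℂ → ℝ) : Prop := ∀ s ∈ zeros T, 0 ≤ w s ∧ w s ≤ mult s

/-- the relative density of the weighted zeros -/
noncomputable def density (T : ℝ) (w : ℂ → ℝ) : ℝ := (∑ᶠ s ∈ zeros T, w s) / X T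

/-- the normalised difference of the ordinates -/
noncomputable def diff (T : ℝ) (s s' : ℂ) : ℝ := (s.im - s'.im) * Real.log T / (2 * Real.pi)

/-- the weighted number of ordered pairs of zeros with normalised difference in `[α, β]`; for
`w = mult` this is the number `N(T; α, β)` of the problem -/
noncomputable def N (T : ℝ) (w : ℂ → ℝ) (α β : ℝ) : ℝ :=
  ∑ᶠ p ∈ {p : ℂ × ℂ | p.1 ∈ zeros T ∧ p.2 ∈ zeros T ∧ α ≤ diff T p.1 p.2 ∧ diff T p.1 p.2 ≤ β},
    w p.1 * w p.2

/-- the smoothed weighted number of pairs of zeros with normalised difference near `c` -/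
noncomputable def W (T : ℝ) (w : ℂ → ℝ) (c δ : ℝ) : ℝ :=
  ∑ᶠ p ∈ {p : ℂ × ℂ | p.1 ∈ zeros T ∧ p.2 ∈ zeros T},
    w p.1 * w p.2 * max 0 (1 - |diff T p.1 p.2 - c| / δ)

lemma zeros_eq (T : ℝ) : zeros T = ↑(H370.Zf riemannZeta 0 T) := by
  ext s
  rw [Finset.mem_coe, Pool.Agent.N804.mem_Z le_rfl]
  simp only [zeros, H370.zset, Set.mem_ofPred_eq]
  tauto

lemma simpleZeros_eq (T : ℝ) : simpleZeros T = ↑(SS T) := by
  ext s
  unfold simpleZeros SS
  rw [zeros_eq, Finset.mem_coe, Finset.mem_filter]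
  exact Iff.rfl

/-- the sets of zeros are finite -/
theorem zeros_finite (T : ℝ) : (zeros T).Finite := by
  rw [zeros_eq]
  exact Finset.finite_toSet _

lemma adm {T : ℝ} {w : ℂ → ℝ} (h : IsWeight T w) : Adm T w := by
  intro s hs
  rw [← Finset.mem_coe, ← zeros_eq] at hs
  exact h s hs

lemma density_eq (T : ℝ) (w : ℂ → ℝ) : density T w = den T w := by
  unfold density den
  rw [zeros_eq, finsum_mem_coe_finset]
  rfl

lemma weight_eq (T c δ : ℝ) (s s' : ℂ) :
    max 0 (1 - |diff T s s' - c| / δ) = hat δ (xs T s - xs T s' - c) := by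
  unfold hat diff xs
  rw [← sub_div, ← sub_mul]

lemma W_eq (T : ℝ) (w : ℂ → ℝ) (c δ : ℝ) : W T w c δ = TW T w c δ := by
  classical
  unfold W TW
  have h : {p : ℂ × ℂ | p.1 ∈ zeros T ∧ p.2 ∈ zeros T} =
      ↑(H370.Zf riemannZeta 0 T ×ˢ H370.Zf riemannZeta 0 T) := by
    rw [zeros_eq]
    ext p
    simp
  rw [h, finsum_mem_coe_finset, Finset.sum_product]
  refine Finset.sum_congr rfl fun s _ => Finset.sum_congr rfl fun s' _ => ?_
  rw [weight_eq]

/-- the smoothed count is at most the count in the window -/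
lemma W_le {T : ℝ} {w : ℂ → ℝ} (hw : IsWeight T w) {c δ : ℝ} (hδ : 0 < δ) :
    W T w c δ ≤ N T w (c - δ) (c + δ) := by
  classical
  set S := H370.Zf riemannZeta 0 T with hS
  have h : {p : ℂ × ℂ | p.1 ∈ zeros T ∧ p.2 ∈ zeros T} = ↑(S ×ˢ S) := by
    rw [zeros_eq]
    ext p
    simp [S]
  have h' : {p : ℂ × ℂ | p.1 ∈ zeros T ∧ p.2 ∈ zeros T ∧ c - δ ≤ diff T p.1 p.2 ∧
      diff T p.1 p.2 ≤ c + δ} = ↑((S ×ˢ S).filter (fun p : ℂ × ℂ => c - δ ≤ diff T p.1 p.2 ∧
      diff T p.1 p.2 ≤ c + δ)) := by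
    rw [zeros_eq]
    ext p
    simp only [Set.mem_ofPred_eq, Finset.coe_filter, Finset.mem_product, Finset.mem_coe, S]
    tauto
  unfold W N
  rw [h, h', finsum_mem_coe_finset, finsum_mem_coe_finset, Finset.sum_filter]
  refine Finset.sum_le_sum fun p hp => ?_
  rw [Finset.mem_product] at hp
  have h1 := (adm hw p.1 hp.1).1
  have h2 := (adm hw p.2 hp.2).1
  rw [weight_eq]
  split_ifs with h3
  · calc w p.1 * w p.2 * hat δ (xs T p.1 - xs T p.2 - c) ≤ w p.1 * w p.2 * 1 := by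
          have := hat_le_one hδ (xs T p.1 - xs T p.2 - c)
          gcongr
      _ = _ := mul_one _
  · rw [← weight_eq]
    have h4 : δ ≤ |diff T p.1 p.2 - c| := by
      by_contra hcon
      push Not at hcon
      have := abs_lt.1 hcon
      exact h3 ⟨by linarith, by linarith⟩
    have h5 : 1 ≤ |diff T p.1 p.2 - c| / δ := by rwa [le_div_iff₀ hδ, one_mul]
    rw [max_eq_left (by linarith), mul_zero]

lemma pdN_of_nice {R : Set ℕ} (h : NiceRecurrence R) : Pool.Agent.Y254.NR.PDN R :=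
  pd_of_ergodic R (ergodic_of_nice R fun X _ μ _ T => h X μ T)

lemma nice_of_pdN {R : Set ℕ} (h : Pool.Agent.Y254.NR.PDN R) : NiceRecurrence R :=
  fun X _ μ _ T => nice_of_uniform R (uniform_of_pd R h) X μ T

/-- The absolute value of a value of a polynomial gives the same window. -/
lemma W_natAbs (T : ℝ) (w : ℂ → ℝ) (v : ℤ) (b δ : ℝ) :
    TW T w (((v.natAbs : ℕ) : ℝ) * b) δ = TW T w ((v : ℝ) * b) δ := by
  rw [Nat.cast_natAbs]
  push_cast
  rcases abs_choice (v : ℝ) with h1 | h1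
  · rw [h1]
  · rw [h1, neg_mul, TW_neg]

/-- the version for polynomials -/
lemma poly_windows (P : ℤ[X]) (hdeg : 1 ≤ P.natDegree)
    (hint : ∀ q : ℕ, 1 ≤ q → ∃ m : ℕ, (q : ℤ) ∣ P.eval (m : ℤ)) (k : ℕ) (δ₀ ε : ℝ) (hδ₀ : 0 < δ₀)
    (hε : 0 < ε) : ∃ (M : ℕ) (κ T₀ : ℝ), 0 < κ ∧ ∀ T : ℝ, T₀ ≤ T →
      ∀ w : Fin k → ℂ → ℝ, (∀ j, IsWeight T (w j)) → ∀ b δ : Fin k → ℝ,
        (∀ j, δ₀ ≤ δ j ∧ δ j ≤ 1) → (∀ j, |b j| ≤ κ * X T) →
        ∃ m : ℕ, 1 ≤ m ∧ m ≤ M ∧ P.eval (m : ℤ) ≠ 0 ∧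
          ((∏ j, (density T (w j)) ^ 2) - ε) * ∏ j, (δ j * X T) ≤
            ∏ j, W T (w j) ((P.eval (m : ℤ) : ℤ) * b j) (δ j) := by
  classical
  obtain ⟨F, κ, T₀, hF, hκ, -, h⟩ := main_rec (pdN_poly P hdeg hint) k δ₀ ε hδ₀ hε
  choose! g hg1 hg0 hg2 using hF
  refine ⟨F.sup g, κ, T₀, hκ, fun T hT w hw b δ hδ hb => ?_⟩
  obtain ⟨n, hn, hle⟩ := h T hT w (fun j => adm (hw j)) b δ hδ hb
  refine ⟨g n, hg1 n hn, Finset.le_sup hn, hg0 n hn, ?_⟩
  simp only [W_eq, density_eq]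
  refine hle.trans (le_of_eq ?_)
  refine Finset.prod_congr rfl fun j _ => ?_
  rw [← W_natAbs, hg2 n hn]

/-- **Short windows at recurrent multiples.**  The weights `w` (which may depend on `T`) are at most the
multiplicity, and `density T w` is their relative density.
(1) Let `R` be a set of nice recurrence, `k ≥ 0`, `δ₀, ε > 0`.  There are a finite subset `F` of `R` and
`κ > 0` such that for all large `T`, all weights `w_1, …, w_k`, all `δ_j` in `[δ₀, 1]` and all real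
`b_1, …, b_k` of absolute value at most `κ X(T)` some `n ∈ F` satisfies
`∏ W T w_j (n b_j) δ_j ≥ (∏ density(w_j)² - ε) ∏ (δ_j X(T))`.
(2) The same for the values `P(m) ≠ 0`, `1 ≤ m ≤ M`, of a nonconstant integer polynomial `P` that has a
zero modulo every positive integer.
(3) For such a polynomial, `0 < δ ≤ 1` and `ε > 0` there are `M` and `κ > 0` such that for all large `T` and
all real `b` with `|b| ≤ κ X(T)` some `1 ≤ m ≤ M` with `P(m) ≠ 0` satisfies
`N(T; P(m) b - δ, P(m) b + δ) ≥ (1 - ε) δ X(T)`; and for a fixed real `b` some `1 ≤ m ≤ M` with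
`P(m) ≠ 0` satisfies this inequality for arbitrarily large `T`.
(4) The nonzero values of such a polynomial are a set of nice recurrence.
(5) The smoothed count is at most the count; the multiplicity has the density `1 + o(1)`, the
indicator function of the simple zeros on the critical line has density at least `0.6725` for large `T`. -/
theorem result :
    (∀ R : Set ℕ, NiceRecurrence R → ∀ (k : ℕ) (δ₀ ε : ℝ), 0 < δ₀ → 0 < ε →
      ∃ (F : Finset ℕ) (κ T₀ : ℝ), (∀ n ∈ F, n ∈ R) ∧ 0 < κ ∧ ∀ T : ℝ, T₀ ≤ T →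
      ∀ w : Fin k → ℂ → ℝ, (∀ j, IsWeight T (w j)) → ∀ b δ : Fin k → ℝ,
        (∀ j, δ₀ ≤ δ j ∧ δ j ≤ 1) → (∀ j, |b j| ≤ κ * X T) →
        ∃ n ∈ F, ((∏ j, (density T (w j)) ^ 2) - ε) * ∏ j, (δ j * X T) ≤
          ∏ j, W T (w j) (n * b j) (δ j)) ∧
    (∀ P : ℤ[X], 1 ≤ P.natDegree → (∀ q : ℕ, 1 ≤ q → ∃ m : ℕ, (q : ℤ) ∣ P.eval (m : ℤ)) →
      (∀ (k : ℕ) (δ₀ ε : ℝ), 0 < δ₀ → 0 < ε → ∃ (M : ℕ) (κ T₀ : ℝ), 0 < κ ∧ ∀ T : ℝ, T₀ ≤ T →
        ∀ w : Fin k → ℂ → ℝ, (∀ j, IsWeight T (w j)) → ∀ b δ : Fin k → ℝ,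
          (∀ j, δ₀ ≤ δ j ∧ δ j ≤ 1) → (∀ j, |b j| ≤ κ * X T) →
          ∃ m : ℕ, 1 ≤ m ∧ m ≤ M ∧ P.eval (m : ℤ) ≠ 0 ∧
            ((∏ j, (density T (w j)) ^ 2) - ε) * ∏ j, (δ j * X T) ≤
              ∏ j, W T (w j) ((P.eval (m : ℤ) : ℤ) * b j) (δ j)) ∧
      (∀ δ ε : ℝ, 0 < δ → δ ≤ 1 → 0 < ε → ∃ (M : ℕ) (κ : ℝ), 0 < κ ∧
        (∃ T₀ : ℝ, ∀ T : ℝ, T₀ ≤ T → ∀ b : ℝ, |b| ≤ κ * X T → ∃ m : ℕ, 1 ≤ m ∧ m ≤ M ∧
          P.eval (m : ℤ) ≠ 0 ∧
          (1 - ε) * δ * X T ≤ N T (fun s => (mult s : ℝ)) ((P.eval (m : ℤ) : ℤ) * b - δ)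
            ((P.eval (m : ℤ) : ℤ) * b + δ)) ∧
        ∀ b : ℝ, ∃ m : ℕ, 1 ≤ m ∧ m ≤ M ∧ P.eval (m : ℤ) ≠ 0 ∧ ∃ᶠ T : ℝ in atTop,
          (1 - ε) * δ * X T ≤ N T (fun s => (mult s : ℝ)) ((P.eval (m : ℤ) : ℤ) * b - δ)
            ((P.eval (m : ℤ) : ℤ) * b + δ)) ∧
      NiceRecurrence {n | ∃ m : ℕ, 1 ≤ m ∧ P.eval (m : ℤ) ≠ 0 ∧ (P.eval (m : ℤ)).natAbs = n}) ∧
    (∀ T : ℝ, ∀ w : ℂ → ℝ, IsWeight T w → ∀ c δ : ℝ, 0 < δ →
      W T w c δ ≤ N T w (c - δ) (c + δ)) ∧
    (∀ ε : ℝ, 0 < ε → ∃ T₀ : ℝ, ∀ T : ℝ, T₀ ≤ T → |density T (fun s => (mult s : ℝ)) - 1| ≤ ε) ∧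
    ∃ T₀ : ℝ, ∀ T : ℝ, T₀ ≤ T → IsWeight T ((simpleZeros T).indicator 1) ∧
      0.6725 ≤ density T ((simpleZeros T).indicator 1) := by
  classical
  have hdens : ∀ ε : ℝ, 0 < ε → ∃ T₀ : ℝ, ∀ T : ℝ, T₀ ≤ T →
      |density T (fun s => (mult s : ℝ)) - 1| ≤ ε := by
    intro ε hε
    obtain ⟨T₀, -, h⟩ := all_count hε
    refine ⟨T₀, fun T hT => ?_⟩
    rw [density_eq]
    obtain ⟨h1, h2⟩ := h T hT
    have e : (fun s => (mult s : ℝ)) = fun s => (H370.mult riemannZeta s : ℝ) := rfl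
    rw [e, abs_le]
    constructor <;> linarith
  refine ⟨?_, ?_, fun T w hw c δ hδ => W_le hw hδ, hdens, ?_⟩
  · intro R hR k δ₀ ε hδ₀ hε
    obtain ⟨F, κ, T₀, hF, hκ, -, h⟩ := main_rec (pdN_of_nice hR) k δ₀ ε hδ₀ hε
    refine ⟨F, κ, T₀, hF, hκ, fun T hT w hw b δ hδ hb => ?_⟩
    simp only [W_eq, density_eq]
    exact h T hT w (fun j => adm (hw j)) b δ hδ hb
  · intro P hdeg hint
    refine ⟨fun k δ₀ ε hδ₀ hε => poly_windows P hdeg hint k δ₀ ε hδ₀ hε, ?_,
      nice_of_pdN (pdN_poly P hdeg hint)⟩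
    intro δ ε hδ hδ1 hε
    obtain ⟨M, κ, T₁, hκ, h⟩ := poly_windows P hdeg hint 1 δ (ε / 2) hδ (by positivity)
    obtain ⟨T₂, h2⟩ := hdens (ε / 4) (by positivity)
    have key : ∀ T : ℝ, max (max T₁ T₂) 2 ≤ T → ∀ b : ℝ, |b| ≤ κ * X T → ∃ m : ℕ, 1 ≤ m ∧ m ≤ M ∧
          P.eval (m : ℤ) ≠ 0 ∧ (1 - ε) * δ * X T ≤ N T (fun s => (mult s : ℝ)) ((P.eval (m : ℤ) : ℤ) * b - δ)
            ((P.eval (m : ℤ) : ℤ) * b + δ) := by
      intro T hT b hb
      have g1 : T₁ ≤ T := (le_max_left _ _).trans ((le_max_left _ _).trans hT)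
      have g2 : T₂ ≤ T := (le_max_right _ _).trans ((le_max_left _ _).trans hT)
      have g3 : 2 ≤ T := (le_max_right _ _).trans hT
      have hX : 0 < X T := Pool.Agent.N804.XX_pos (by linarith)
      have hw : IsWeight T (fun s => (mult s : ℝ)) := fun s _ => ⟨Nat.cast_nonneg _, le_rfl⟩
      obtain ⟨m, hm1, hm2, hm0, hle⟩ := h T g1 (fun _ s => (mult s : ℝ)) (fun _ => hw) (fun _ => b)
        (fun _ => δ) (fun _ => ⟨le_rfl, hδ1⟩) (fun _ => hb)
      refine ⟨m, hm1, hm2, hm0, le_trans ?_ (hle.trans ?_)⟩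
      · simp only [Finset.prod_const, Finset.card_univ, Fintype.card_fin, pow_one]
        have h3 := abs_le.1 (h2 T g2)
        have h4 : 1 - ε ≤ (density T (fun s => (mult s : ℝ))) ^ 2 - ε / 2 := by
          nlinarith [sq_nonneg (density T (fun s => (mult s : ℝ)) - 1)]
        calc (1 - ε) * δ * X T = (1 - ε) * (δ * X T) := by ring
          _ ≤ _ := mul_le_mul_of_nonneg_right h4 (by positivity)
      · simp only [Finset.prod_const, Finset.card_univ, Fintype.card_fin, pow_one]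
        exact W_le hw hδ
    refine ⟨M, κ, hκ, ⟨_, key⟩, ?_⟩
    intro b
    by_contra hcon
    push Not at hcon
    have h3 : ∀ m ∈ Finset.Icc 1 M, ∀ᶠ T : ℝ in atTop, P.eval (m : ℤ) ≠ 0 →
        ¬ ((1 - ε) * δ * X T ≤ N T (fun s => (mult s : ℝ)) ((P.eval (m : ℤ) : ℤ) * b - δ)
            ((P.eval (m : ℤ) : ℤ) * b + δ)) := by
      intro m hm
      rw [Finset.mem_Icc] at hm
      by_cases hm0 : P.eval (m : ℤ) = 0
      · exact Filter.Eventually.of_forall fun T h => absurd hm0 h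
      exact (hcon m hm.1 hm.2 hm0).mono fun T hT _ => not_le.2 hT
    have h4 := (Filter.eventually_all_finset _).2 h3
    obtain ⟨T₃, hT₃⟩ := XX_large (|b| / κ)
    obtain ⟨T, hT1, hT2⟩ := (h4.and (eventually_ge_atTop (max (max (max T₁ T₂) 2) T₃))).exists
    obtain ⟨m, hm1, hm2, hm0, hle⟩ := key T ((le_max_left _ _).trans hT2) b (by
      have h5 := hT₃ T ((le_max_right _ _).trans hT2)
      rw [div_le_iff₀ hκ] at h5
      have e : X T = Pool.Agent.N804.XX T := rfl
      rw [e]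
      linarith)
    exact hT1 m (Finset.mem_Icc.2 ⟨hm1, hm2⟩) hm0 hle
  · obtain ⟨T₀, h10, h⟩ := simple_count
    refine ⟨T₀, fun T hT => ⟨?_, ?_⟩⟩
    · intro s _
      by_cases hs : s ∈ simpleZeros T
      · rw [Set.indicator_of_mem hs]
        have := hs.2.2
        simp [this]
      · rw [Set.indicator_of_notMem hs]
        simp
    · rw [density_eq]
      unfold den
      have hX : 0 < Pool.Agent.N804.XX T := Pool.Agent.N804.XX_pos (by linarith)
      rw [le_div_iff₀ hX]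
      refine (h T hT).trans (le_of_eq ?_)
      have hsub : SS T ⊆ H370.Zf riemannZeta 0 T := by
        unfold SS
        exact Finset.filter_subset _ _
      rw [simpleZeros_eq, ← Finset.sum_subset hsub]
      · rw [Finset.card_eq_sum_ones]
        push_cast
        refine Finset.sum_congr rfl fun s hs => ?_
        rw [Set.indicator_of_mem (by exact_mod_cast hs)]
        rfl
      · intro s _ hs
        exact Set.indicator_of_notMem (by exact_mod_cast hs) _

end Pool.Agent.Results.MP_8958e8_nt.RecurrenceWindows
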